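import Pool.Agent.Helper45.CF.GoalsA
import Pool.Agent.Helper39.CR.ISO
import Pool.Agent.Helper91.CR.TZ

/-!
# Project CF (MP_d97caa_an), packet SPH: the sphere
-/

open scoped ComplexOrder ZeroAtInfty Topology ComplexConjugate
open TopologicalSpace Filter

namespace Pool.Agent.Helper20.CF

open Pool.Agent.Helper34.CAR Pool.Agent.Helper39.CR Pool.Agent.Helper39.Uct
open Pool.Agent.Helper45.CF

noncomputable section

/-- The north pole. -/
def pN : Sphere2 := pol (0, 1)

/-- The south pole. -/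
def pS : Sphere2 := pol (1, 1)

theorem pol_zero (z : Circle) : pol (0, z) = pN := by
  apply Subtype.ext
  apply Prod.ext
  · rfl
  · change ((Real.sin (Real.pi * ((0 : unitInterval) : ℝ)) : ℝ) : ℂ) * (z : ℂ) =
      ((Real.sin (Real.pi * ((0 : unitInterval) : ℝ)) : ℝ) : ℂ) * ((1 : Circle) : ℂ)
    simp

theorem pol_one (z : Circle) : pol (1, z) = pS := by
  apply Subtype.ext
  apply Prod.ext
  · rfl
  · change ((Real.sin (Real.pi * ((1 : unitInterval) : ℝ)) : ℝ) : ℂ) * (z : ℂ) =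
      ((Real.sin (Real.pi * ((1 : unitInterval) : ℝ)) : ℝ) : ℂ) * ((1 : Circle) : ℂ)
    simp

theorem pN_fst : pN.1.1 = 1 := by
  change Real.cos (Real.pi * ((0 : unitInterval) : ℝ)) = 1
  simp

theorem pS_fst : pS.1.1 = -1 := by
  change Real.cos (Real.pi * ((1 : unitInterval) : ℝ)) = -1
  simp

theorem pol_fst (p : unitInterval × Circle) : (pol p).1.1 = Real.cos (Real.pi * p.1) := rfl

theorem pol_snd (p : unitInterval × Circle) :
    (pol p).1.2 = ((Real.sin (Real.pi * p.1) : ℝ) : ℂ) * (p.2 : ℂ) := rfl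

theorem pol_surj : Function.Surjective pol := by
  rintro ⟨⟨t, w⟩, h⟩
  have h' : t ^ 2 + ‖w‖ ^ 2 = 1 := h
  have ht1 : -1 ≤ t := by nlinarith [sq_nonneg ‖w‖, sq_nonneg (t - 1), norm_nonneg w]
  have ht2 : t ≤ 1 := by nlinarith [sq_nonneg ‖w‖, sq_nonneg (t + 1), norm_nonneg w]
  have hpi := Real.pi_pos
  let s : unitInterval := ⟨Real.arccos t / Real.pi, by
    constructor
    · exact div_nonneg (Real.arccos_nonneg t) hpi.le
    · rw [div_le_one hpi]
      exact Real.arccos_le_pi t⟩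
  have hs : Real.pi * (s : ℝ) = Real.arccos t := by
    change Real.pi * (Real.arccos t / Real.pi) = Real.arccos t
    field_simp
  have hsin : Real.sin (Real.pi * (s : ℝ)) = ‖w‖ := by
    rw [hs, Real.sin_arccos, Real.sqrt_eq_iff_mul_self_eq (by nlinarith) (norm_nonneg w)]
    nlinarith
  by_cases hw : w = 0
  · refine ⟨(s, 1), ?_⟩
    apply Subtype.ext
    apply Prod.ext
    · rw [pol_fst]
      change Real.cos (Real.pi * (s : ℝ)) = t
      rw [hs, Real.cos_arccos ht1 ht2]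
    · rw [pol_snd]
      change ((Real.sin (Real.pi * (s : ℝ)) : ℝ) : ℂ) * ((1 : Circle) : ℂ) = w
      rw [hsin, hw]
      simp
  · have hn : ‖w‖ ≠ 0 := by rwa [norm_ne_zero_iff]
    let z : Circle := ⟨w / (‖w‖ : ℂ), mem_sphere_zero_iff_norm.2 (by
      rw [norm_div, Complex.norm_real, norm_norm, div_self hn])⟩
    refine ⟨(s, z), ?_⟩
    apply Subtype.ext
    apply Prod.ext
    · rw [pol_fst]
      change Real.cos (Real.pi * (s : ℝ)) = t
      rw [hs, Real.cos_arccos ht1 ht2]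
    · rw [pol_snd]
      change ((Real.sin (Real.pi * (s : ℝ)) : ℝ) : ℂ) * (w / (‖w‖ : ℂ)) = w
      have hn' : (‖w‖ : ℂ) ≠ 0 := by exact_mod_cast hn
      rw [hsin]
      field_simp

/-- Points with the same polar coordinates. -/
theorem pol_eq {p p' : unitInterval × Circle} (h : pol p = pol p') :
    p.1 = p'.1 ∧ (p.2 = p'.2 ∨ p.1 = 0 ∨ p.1 = 1) := by
  have hpi := Real.pi_pos
  have h1 : Real.cos (Real.pi * p.1) = Real.cos (Real.pi * p'.1) :=
    congrArg (fun y : Sphere2 => y.1.1) h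
  have h2 : ((Real.sin (Real.pi * p.1) : ℝ) : ℂ) * (p.2 : ℂ) =
      ((Real.sin (Real.pi * p'.1) : ℝ) : ℂ) * (p'.2 : ℂ) :=
    congrArg (fun y : Sphere2 => y.1.2) h
  have hmem : ∀ t : unitInterval, Real.pi * (t : ℝ) ∈ Set.Icc 0 Real.pi := fun t =>
    ⟨mul_nonneg hpi.le t.2.1, mul_le_of_le_one_right hpi.le t.2.2⟩
  have h3 : Real.pi * (p.1 : ℝ) = Real.pi * p'.1 := Real.injOn_cos (hmem _) (hmem _) h1
  have h4 : p.1 = p'.1 := Subtype.ext (mul_left_cancel₀ hpi.ne' h3)
  refine ⟨h4, ?_⟩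
  by_cases h0 : p.1 = 0
  · exact Or.inr (Or.inl h0)
  by_cases h5 : p.1 = 1
  · exact Or.inr (Or.inr h5)
  left
  have hlt0 : (0 : ℝ) < p.1 := lt_of_le_of_ne p.1.2.1 (fun h => h0 (Subtype.ext h.symm))
  have hlt1 : (p.1 : ℝ) < 1 := lt_of_le_of_ne p.1.2.2 (fun h => h5 (Subtype.ext h))
  have hs : 0 < Real.sin (Real.pi * p.1) := by
    apply Real.sin_pos_of_pos_of_lt_pi (mul_pos hpi hlt0)
    calc Real.pi * (p.1 : ℝ) < Real.pi * 1 := mul_lt_mul_of_pos_left hlt1 hpi
      _ = Real.pi := mul_one _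
  have hs' : ((Real.sin (Real.pi * p.1) : ℝ) : ℂ) ≠ 0 := by exact_mod_cast hs.ne'
  rw [← h4] at h2
  exact Subtype.ext (mul_left_cancel₀ hs' h2)

/-- Functions on the sphere vanishing at the poles. -/
def jSub (A : Type) [NonUnitalCStarAlgebra A] :
    NonUnitalStarSubalgebra ℂ C(Sphere2, A) where
  carrier := {f | f pN = 0 ∧ f pS = 0}
  add_mem' {f g} hf hg := by simp_all
  zero_mem' := by simp
  mul_mem' {f g} hf hg := by simp_all
  smul_mem' c f hf := by simp_all
  star_mem' {f} hf := by simp_all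

instance (A : Type) [NonUnitalCStarAlgebra A] :
    IsClosed ((jSub A : NonUnitalStarSubalgebra ℂ C(Sphere2, A)) :
      Set C(Sphere2, A)) := by
  have h : ((jSub A : NonUnitalStarSubalgebra ℂ C(Sphere2, A)) :
      Set C(Sphere2, A)) = {f | f pN = 0} ∩ {f | f pS = 0} := rfl
  rw [h]
  exact (isClosed_eq (continuous_eval_const pN) continuous_const).inter
    (isClosed_eq (continuous_eval_const pS) continuous_const)

/-- The kernel of the evaluation at the poles. -/
abbrev JJ (A : Type) [NonUnitalCStarAlgebra A] : Type := ↥(jSub A)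

variable {A : Type} [NonUnitalCStarAlgebra A]

/-- Polar coordinates. -/
def phi (A : Type) [NonUnitalCStarAlgebra A] : JJ A →⋆ₙₐ[ℂ] Sus C(Circle, A) where
  toFun f := ⟨(f.1.comp pol).curry, by
    constructor
    · ext z
      change f.1 (pol (0, z)) = 0
      rw [pol_zero]
      exact f.2.1
    · ext z
      change f.1 (pol (1, z)) = 0
      rw [pol_one]
      exact f.2.2⟩
  map_smul' _ _ := rfl
  map_zero' := rfl
  map_add' _ _ := rfl
  map_mul' _ _ := rfl
  map_star' _ := rfl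

theorem phi_apply (f : JJ A) (t : unitInterval) (z : Circle) :
    (phi A f).1 t z = f.1 (pol (t, z)) := rfl

theorem phi_inj : Function.Injective (phi A) := by
  intro f g h
  apply Subtype.ext
  ext y
  obtain ⟨⟨t, z⟩, rfl⟩ := pol_surj y
  rw [← phi_apply, ← phi_apply, h]

theorem phi_surj : Function.Surjective (phi A) := by
  intro g
  let G : C(unitInterval × Circle, A) := ⟨fun p => g.1 p.1 p.2, by fun_prop⟩
  obtain ⟨f, hf⟩ := quo pol pol_surj G (by
    rintro ⟨t, z⟩ ⟨t', z'⟩ h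
    obtain ⟨h1, h2⟩ := pol_eq h
    change t = t' at h1
    change z = z' ∨ t = 0 ∨ t = 1 at h2
    change g.1 t z = g.1 t' z'
    subst h1
    rcases h2 with h2 | h2 | h2
    · rw [h2]
    · rw [h2, g.2.1]
      rfl
    · rw [h2, g.2.2]
      rfl)
  refine ⟨⟨f, ?_, ?_⟩, ?_⟩
  · change f (pol (0, 1)) = 0
    rw [hf]
    change g.1 0 1 = 0
    rw [g.2.1]
    rfl
  · change f (pol (1, 1)) = 0
    rw [hf]
    change g.1 1 1 = 0
    rw [g.2.2]
    rfl
  · apply Subtype.ext
    ext t z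
    rw [phi_apply]
    exact hf (t, z)

/-- Bijective homomorphisms. -/
theorem zero_of_bij (T : Theory) {B C : Type} [NonUnitalCStarAlgebra B]
    [NonUnitalCStarAlgebra C] [SeparableSpace B] [SeparableSpace C] (φ : B →⋆ₙₐ[ℂ] C)
    (hφ : Function.Bijective φ) (hC : T.Zero C) : T.Zero B := by
  intro i x
  let e := StarAlgEquiv.ofBijective φ hφ
  let ψ : C →⋆ₙₐ[ℂ] B := (e.symm : C →⋆ₙₐ[ℂ] B)
  have h1 : ∀ b, φ (ψ b) = b := fun b => e.apply_symm_apply b
  have h2 : ∀ b, ψ (φ b) = b := fun b => e.symm_apply_apply b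
  obtain ⟨y, hy⟩ := (bij_of_inv T i φ ψ h1 h2).2 x
  rw [← hy, hC i y, map_zero]

/-- Extensions by algebras with vanishing theory. -/
theorem zero_of_ext (T : Theory) {J B Q : Type} [NonUnitalCStarAlgebra J]
    [NonUnitalCStarAlgebra B] [NonUnitalCStarAlgebra Q] [SeparableSpace J] [SeparableSpace B]
    [SeparableSpace Q] (u : J →⋆ₙₐ[ℂ] B) (q : B →⋆ₙₐ[ℂ] Q) (hu : Function.Injective u)
    (hq : Function.Surjective q) (hk : ∀ a, q a = 0 ↔ a ∈ Set.range u) (hJ : T.Zero J)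
    (hQ : T.Zero Q) : T.Zero B := by
  intro i x
  obtain ⟨y, hy⟩ := (bij_of_ext T i u q hu hq hk hJ).2 x
  rw [← hy, hQ i y, map_zero]

/-- First inclusion. -/
def inl1 (A : Type) [NonUnitalCStarAlgebra A] : A →⋆ₙₐ[ℂ] A × A where
  toFun a := (a, 0)
  map_smul' c a := by ext <;> simp
  map_zero' := rfl
  map_add' a b := by ext <;> simp
  map_mul' a b := by ext <;> simp
  map_star' a := by ext <;> simp

/-- Second projection. -/
def snd1 (A : Type) [NonUnitalCStarAlgebra A] : A × A →⋆ₙₐ[ℂ] A where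
  toFun a := a.2
  map_smul' _ _ := rfl
  map_zero' := rfl
  map_add' _ _ := rfl
  map_mul' _ _ := rfl
  map_star' _ := rfl

theorem zero_prod [SeparableSpace A] (T : Theory) (h : T.Zero A) : T.Zero (A × A) := by
  refine zero_of_ext T (inl1 A) (snd1 A) ?_ ?_ ?_ h h
  · intro a b hab
    exact congrArg Prod.fst hab
  · intro a
    exact ⟨(0, a), rfl⟩
  · rintro ⟨a, b⟩
    constructor
    · intro h
      change b = 0 at h
      exact ⟨a, by rw [h]; rfl⟩
    · rintro ⟨c, hc⟩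
      exact (congrArg Prod.snd hc).symm

/-- Inclusion of the kernel. -/
def incJ (A : Type) [NonUnitalCStarAlgebra A] : JJ A →⋆ₙₐ[ℂ] C(Sphere2, A) where
  toFun f := f.1
  map_smul' _ _ := rfl
  map_zero' := rfl
  map_add' _ _ := rfl
  map_mul' _ _ := rfl
  map_star' _ := rfl

/-- Evaluation at the poles. -/
def evP (A : Type) [NonUnitalCStarAlgebra A] : C(Sphere2, A) →⋆ₙₐ[ℂ] A × A where
  toFun f := (f pN, f pS)
  map_smul' _ _ := rfl
  map_zero' := rfl
  map_add' _ _ := rfl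
  map_mul' _ _ := rfl
  map_star' _ := rfl

theorem evP_surj : Function.Surjective (evP A) := by
  rintro ⟨a, b⟩
  refine ⟨⟨fun y => (((1 + y.1.1) / 2 : ℝ) : ℂ) • a + (((1 - y.1.1) / 2 : ℝ) : ℂ) • b, ?_⟩, ?_⟩
  · have h1 : Continuous fun y : Sphere2 => (((1 + y.1.1) / 2 : ℝ) : ℂ) := by fun_prop
    have h2 : Continuous fun y : Sphere2 => (((1 - y.1.1) / 2 : ℝ) : ℂ) := by fun_prop
    exact (h1.smul continuous_const).add (h2.smul continuous_const)
  · apply Prod.ext
    · change (((1 + pN.1.1) / 2 : ℝ) : ℂ) • a + (((1 - pN.1.1) / 2 : ℝ) : ℂ) • b = a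
      rw [pN_fst]
      norm_num
    · change (((1 + pS.1.1) / 2 : ℝ) : ℂ) • a + (((1 - pS.1.1) / 2 : ℝ) : ℂ) • b = b
      rw [pS_fst]
      norm_num

/-- SPH. -/
theorem t (hCIR : S_CIR) : S_SPH := by
  intro T A _ _ hA
  have hc : T.Zero C(Circle, A) := hCIR T A hA
  have hs : T.Zero (Sus C(Circle, A)) :=
    (Pool.Agent.Helper60.CR.tsz Pool.Agent.Helper91.CR.tz T C(Circle, A)).2 hc
  have hJ : T.Zero (JJ A) := zero_of_bij T (phi A) ⟨phi_inj, phi_surj⟩ hs
  refine zero_of_ext T (incJ A) (evP A) ?_ evP_surj ?_ hJ (zero_prod T hA)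
  · intro f g h
    exact Subtype.ext h
  · intro f
    constructor
    · intro h
      exact ⟨⟨f, congrArg Prod.fst h, congrArg Prod.snd h⟩, rfl⟩
    · rintro ⟨g, rfl⟩
      exact Prod.ext g.2.1 g.2.2

end

end Pool.Agent.Helper20.CF
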